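import Pool.Agent.AG.Mir.Blade
import Pool.Agent.AG.Reg.Defs

/-!
# Project AG: the mirror image, positions, pairs, `pA`, `pO`, `pB`, `OpenMin`

All statements are proved.

Hints.  `ps_add`: `S.ps a + S.mir.ps (mc a)` is constant on every visit.  For a glued corner `x`:
`S.ps x = S.ps (cw x) + 1` (`ps_of_glued`), and `mc (S.cw x)` is glued in `S.mir`
(`mir_glued_mc`, `unrot_cw_glued`) with `S.mir.cw (mc (S.cw x)) = mc (S.ccw (S.cw x)) = mc x`
(`mir_cw`, `ccw_cw`), so `S.mir.ps (mc (cw x)) = S.mir.ps (mc x) + 1`; then induction on `Eqv`.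
`mir_linear` : from `S.Linear`; write the fan of `mc a` in `S.mir`: going clockwise in the mirror is
going counterclockwise in `S`.  If it did not end, all `S.ccw^[n] a` would have a glued side
`unrot`, so `S.ps (S.ccw^[n] a) = S.ps a + n` (`ps_ccw`), infinitely many different corners in the
finite set `S.sides`.
`lo_mir`, `hi_mir`: cases `VirtA`, `VirtB` (a virtual blade cannot be both: `hnot`), with
`cw (ccw w) = w` (`cw_ccw`, the side `unrot w` is glued, `BladeAt.glued'`).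
`isIn_mir`: `S.mir.bd X = (S.bd X).image ms = {ms c, ms (g c')}`, `mc (cw c') = ms (g c')` and
`S.mir.g (mc (cw c)) = ms c`.
`inS_mir`: the two predicates `IsIn S.mir (mc (cw c')) (mc (cw c))` and `IsIn S c c'` on `Finset I` are
equal by `funext`, `propext` and `isIn_mir`, so the two choices are equal (no uniqueness is
needed): unfold `InS`, or `congr`.
-/

set_option linter.unusedSectionVars false
set_option linter.unusedSimpArgs false
set_option linter.unusedVariables false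

namespace AG

open Finset

variable {I : Type} [DecidableEq I]

namespace Obj

variable {S : Obj I} {pt : Sd I → Pt}

theorem mir_linear (hl : S.Linear) : S.mir.Linear := by
  rw [Linear, forall_mc]
  intro a
  have hit : ∀ n : ℕ, S.mir.cw^[n] (mc a) = mc (S.ccw^[n] a) := by
    intro n
    induction n with
    | zero => rfl
    | succ n ih => rw [Function.iterate_succ_apply', ih, mir_cw, Function.iterate_succ_apply']
  by_contra hcon
  push Not at hcon
  have hgl : ∀ n : ℕ, S.g (unrot (S.ccw^[n] a)) ≠ unrot (S.ccw^[n] a) := by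
    intro n
    have := hcon n
    rw [hit] at this
    exact (mir_glued_mc S).1 this
  have haF : a.1 ∈ S.F := S.memF (unrot a) (hgl 0)
  obtain ⟨b, -, -, hmax⟩ := exists_top hl haF
  have key : ∀ n : ℕ, S.Eqv a (S.ccw^[n] a) ∧ S.ps (S.ccw^[n] a) = S.ps a + n := by
    intro n
    induction n with
    | zero => exact ⟨Eqv.refl S a, rfl⟩
    | succ n ih =>
      rw [Function.iterate_succ_apply']
      refine ⟨ih.1.trans (ccw_eqv (hgl n)), ?_⟩
      rw [ps_ccw hl (hgl n), ih.2]; omega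
  have h1 := key (S.ps b + 1)
  have h2 := hmax _ h1.1
  omega

theorem ps_add (hl : S.Linear) {a b : Sd I} (h : S.Eqv a b) :
    S.ps a + S.mir.ps (mc a) = S.ps b + S.mir.ps (mc b) := by
  have step : ∀ x : Sd I, S.g x ≠ x →
      S.ps x + S.mir.ps (mc x) = S.ps (S.cw x) + S.mir.ps (mc (S.cw x)) := by
    intro x hx
    have h1 := ps_of_glued hl hx
    have h2 : S.mir.g (mc (S.cw x)) ≠ mc (S.cw x) := (mir_glued_mc S).2 (unrot_cw_glued hx)
    have h3 := ps_of_glued (mir_linear hl) h2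
    rw [mir_cw, ccw_cw hx] at h3
    omega
  induction h with
  | rel x y hxy =>
    have h1 := step x hxy.1
    rw [cw_of_glued hxy.1, ← hxy.2] at h1
    exact h1
  | refl x => rfl
  | symm x y _ ih => exact ih.symm
  | trans x y z _ _ ih1 ih2 => exact ih1.trans ih2

theorem ps_mir_lt (hl : S.Linear) {a b : Sd I} (h : S.Eqv a b) :
    S.mir.ps (mc a) < S.mir.ps (mc b) ↔ S.ps b < S.ps a := by
  have := ps_add hl h; omega

theorem pr_mir (hl : S.Linear) {w w' : Sd I} :
    S.mir.Pr (ptm pt) (mc w') (mc w) ↔ S.Pr pt w w' := by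
  constructor
  · rintro ⟨h1, h2, h3, h4⟩
    have h3' := (S.mir_eqv).1 h3
    exact ⟨(bladeAt_mir S pt).1 h2, (bladeAt_mir S pt).1 h1, h3'.symm, (ps_mir_lt hl h3').1 h4⟩
  · rintro ⟨h1, h2, h3, h4⟩
    exact ⟨(bladeAt_mir S pt).2 h2, (bladeAt_mir S pt).2 h1, (S.mir_eqv).2 h3.symm,
      (ps_mir_lt hl h3.symm).2 h4⟩

theorem cons_mir (hl : S.Linear) {w w' : Sd I} :
    S.mir.Cons (ptm pt) (mc w') (mc w) ↔ S.Cons pt w w' := by
  constructor
  · rintro ⟨h1, h2⟩
    have h1' := (pr_mir hl).1 h1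
    refine ⟨h1', fun u hu he hl1 hl2 => ?_⟩
    exact h2 (mc u) ((bladeAt_mir S pt).2 hu) ((S.mir_eqv).2 (h1'.eqv.symm.trans he))
      ((ps_mir_lt hl (h1'.eqv.symm.trans he)).2 hl2) ((ps_mir_lt hl he.symm).2 hl1)
  · rintro ⟨h1, h2⟩
    refine ⟨(pr_mir hl).2 h1, ?_⟩
    rw [forall_mc]
    intro u hu he hl1 hl2
    have he' := (S.mir_eqv).1 he
    have hu' := (bladeAt_mir S pt).1 hu
    have he2 : S.Eqv w u := h1.eqv.trans he'
    exact h2 u hu' he2 ((ps_mir_lt hl he2.symm).1 hl2) ((ps_mir_lt hl he').1 hl1)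

theorem lo_mir {w : Sd I} (hw : S.BladeAt pt w) (hnot : ¬ (S.VirtA pt w ∧ S.VirtB pt w)) :
    S.mir.lo (ptm pt) (mc w) = mc (S.cw (S.hi pt w)) := by
  classical
  unfold lo hi
  by_cases h : S.VirtA pt w
  · rw [if_pos ((virtB_mir S pt).2 h), if_pos h, mir_ccw]
  · rw [if_neg (fun h' => h ((virtB_mir S pt).1 h')), if_neg h, cw_ccw hw.glued']

theorem hi_mir {w : Sd I} (hw : S.BladeAt pt w) (hnot : ¬ (S.VirtA pt w ∧ S.VirtB pt w)) :
    S.mir.hi (ptm pt) (mc w) = mc (S.cw (S.lo pt w)) := by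
  classical
  unfold lo hi
  by_cases h : S.VirtB pt w
  · rw [if_pos ((virtA_mir S pt).2 h), if_pos h, cw_ccw hw.glued']
  · rw [if_neg (fun h' => h ((virtA_mir S pt).1 h')), if_neg h, mir_ccw]

theorem isIn_mir (hl : S.Linear) {c c' : Sd I} (hc : S.g c ≠ c) (hc' : S.g c' ≠ c')
    {X : Finset I} : S.mir.IsIn (mc (S.cw c')) (mc (S.cw c)) X ↔ S.IsIn c c' X := by
  have e1 : mc (S.cw c') = ms (S.g c') := by rw [cw_of_glued hc']; rfl
  have e2 : S.mir.g (mc (S.cw c)) = ms c := by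
    rw [mir_g_mc, cw_of_glued hc, unrot_rot, S.invol]
  have hpc := ps_of_glued hl hc
  have hpc' := ps_of_glued hl hc'
  have hbd : S.mir.bd X = {mc (S.cw c'), S.mir.g (mc (S.cw c))} ↔ S.bd X = {c, S.g c'} := by
    rw [mir_bd, e1, e2, ← image_singleton (f := ms), ← image_insert, Finset.pair_comm]
    exact (Finset.image_injective ms_injective).eq_iff
  have heq : S.mir.Eqv (mc (S.cw c')) (mc (S.cw c)) ↔ S.Eqv c c' := by
    rw [mir_eqv]
    constructor
    · intro h
      exact (S.cw_eqv c).trans (h.symm.trans (S.cw_eqv c').symm)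
    · intro h
      exact (S.cw_eqv c').symm.trans (h.symm.trans (S.cw_eqv c))
  constructor
  · intro h
    have h1 := heq.1 h.eqv
    have h2 := h.lt
    rw [ps_mir_lt hl ((S.mir_eqv).1 h.eqv)] at h2
    exact ⟨hc, hc', h1, by omega, h.sub, hbd.1 h.bd⟩
  · intro h
    have h1 := heq.2 h.eqv
    refine ⟨(mir_glued_mc S).2 (unrot_cw_glued hc'), (mir_glued_mc S).2 (unrot_cw_glued hc), h1, ?_,
      h.sub, hbd.2 h.bd⟩
    rw [ps_mir_lt hl ((S.mir_eqv).1 h1)]
    have := h.lt
    omega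

theorem inS_mir (hl : S.Linear) {c c' : Sd I} (hc : S.g c ≠ c) (hc' : S.g c' ≠ c') :
    S.mir.InS (mc (S.cw c')) (mc (S.cw c)) = S.InS c c' := by
  classical
  have e : (fun X => S.mir.IsIn (mc (S.cw c')) (mc (S.cw c)) X) = fun X => S.IsIn c c' X :=
    funext fun X => propext (isIn_mir hl hc hc')
  have key : ∀ p q : Finset I → Prop, p = q →
      (if h : ∃ X, p X then h.choose else ∅) = (if h : ∃ X, q X then h.choose else ∅) := by
    rintro p q rfl; rfl
  unfold InS
  exact key _ _ e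

theorem lo_glued {w : Sd I} (hw : S.BladeAt pt w) : S.g (S.lo pt w) ≠ S.lo pt w := by
  classical
  unfold lo
  by_cases h : S.VirtB pt w
  · rw [if_pos h]; exact ccw_glued hw.glued'
  · rw [if_neg h]; exact hw.glued

theorem hi_glued {w : Sd I} (hw : S.BladeAt pt w) : S.g (S.hi pt w) ≠ S.hi pt w := by
  classical
  unfold hi
  by_cases h : S.VirtA pt w
  · rw [if_pos h]; exact hw.glued
  · rw [if_neg h]; exact ccw_glued hw.glued'

theorem pA_mir (hl : S.Linear) (hnot : ∀ w, ¬ (S.VirtA pt w ∧ S.VirtB pt w)) {w w' : Sd I}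
    (hw : S.BladeAt pt w) (hw' : S.BladeAt pt w') :
    S.mir.pA (ptm pt) (mc w') (mc w) = S.pA pt w w' := by
  unfold pA
  rw [hi_mir hw' (hnot w'), lo_mir hw (hnot w), inS_mir hl (hi_glued hw) (lo_glued hw')]

theorem pO_mir (hl : S.Linear) (hnot : ∀ w, ¬ (S.VirtA pt w ∧ S.VirtB pt w)) {w w' : Sd I}
    (hw : S.BladeAt pt w) (hw' : S.BladeAt pt w') :
    S.mir.pO (ptm pt) (mc w') (mc w) = S.pO pt w w' := by
  unfold pO
  rw [lo_mir hw' (hnot w'), hi_mir hw (hnot w), inS_mir hl (lo_glued hw) (hi_glued hw')]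

theorem pB_mir (hl : S.Linear) (hnot : ∀ w, ¬ (S.VirtA pt w ∧ S.VirtB pt w)) {w w' : Sd I}
    (hw : S.BladeAt pt w) (hw' : S.BladeAt pt w') :
    S.mir.pB (ptm pt) (mc w') (mc w) = S.pB pt w w' := by
  unfold pB
  rw [pO_mir hl hnot hw hw', mir_F]

theorem triv_mir (hl : S.Linear) (hnot : ∀ w, ¬ (S.VirtA pt w ∧ S.VirtB pt w)) {w w' : Sd I}
    (hw : S.BladeAt pt w) (hw' : S.BladeAt pt w') :
    S.mir.Triv (ptm pt) (mc w') (mc w) ↔ S.Triv pt w w' := by
  unfold Triv
  rw [pA_mir hl hnot hw hw', exists_mc_iff]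
  refine exists_congr fun c => ?_
  rw [eared_mir, mc_fst]

/-- `OpenMin` is invariant.  `hnot` is proved in block 5 (`VirtA.not_virtB`), linearity follows from
`Geo`; they are hypotheses here only to keep the imports small -/
theorem openMin_mir {R : Set Pt} (hlin : ∀ (S : Obj I) (pt : Sd I → Pt), Cex S pt R → S.Linear)
    (hlin' : ∀ (S : Obj I) (pt : Sd I → Pt), Cex S pt (refl '' R) → S.Linear)
    (hnot : ∀ (S : Obj I) (pt : Sd I → Pt) (w : Sd I), Cex S pt R →
      ¬ (S.VirtA pt w ∧ S.VirtB pt w))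
    (hnot' : ∀ (S : Obj I) (pt : Sd I → Pt) (w : Sd I), Cex S pt (refl '' R) →
      ¬ (S.VirtA pt w ∧ S.VirtB pt w))
    {w0 w0' : Sd I} (h : OpenMin S pt R w0 w0') :
    OpenMin S.mir (ptm pt) (refl '' R) (mc w0') (mc w0) := by
  have hl := hlin S pt h.cex
  have hn := fun w => hnot S pt w h.cex
  refine ⟨mir_cex.2 h.cex, (pr_mir hl).2 h.pr, ?_, ?_⟩
  · rw [triv_mir hl hn h.pr.b h.pr.b']
    exact h.nt
  · intro S' pt' u u' hC hg hp ht
    have hl' := hlin' S' pt' hC
    have hn' := fun w => hnot' S' pt' w hC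
    have hC' : Cex S'.mir (ptm pt') R := by
      have := mir_cex.2 hC
      rwa [refl_refl_image] at this
    have h1 := h.min S'.mir (ptm pt') (mc u') (mc u) hC'
      (by rw [mir_glued_card, hg, mir_glued_card]) ((pr_mir hl').2 hp)
      (by rw [triv_mir hl' hn' hp.b hp.b']; exact ht)
    rw [pB_mir hl' hn' hp.b hp.b'] at h1
    rw [pB_mir hl hn h.pr.b h.pr.b']
    exact h1

end Obj

end AG
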