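import Pool.Agent.AG.Mir.Geo

/-!
# Project AG: the mirror image, faces, blades, virtual blades

TASK: prove the statements (they are in a good order, each is a rewriting with Mir/Defs.lean:
`mir_glued`, `mir_glued_mc`, `mir_unglued`, `mem_mir_E`, `unrot_mc`, `rot_mc`, `rot_ms`,
`mir_g_ms`, `mir_g_mc`, `cang_mir`).

Dictionary: the side `ms a` of `S.mir` is the mirror of the side `a`, it starts at the corner
`ms a = mc (rot a)` and ends at the corner `rot (ms a) = mc a`.  The corner `mc c` has the sides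
`mc c = ms (unrot c)` and `unrot (mc c) = ms c`, its opposite side is `rot (mc c) = ms (rot c)`.
`blk_mir`: `cang (ptm pt) (ms a) = cang pt (rot a)`, and
`rot (S.mir.g (ms a)) = rot (ms (S.g a)) = mc (S.g a)`, so the sum is
`cang pt (rot a) + cang pt (S.g a)`, which is the sum for `Blk (S.g a)`.
`isU_mir`: `isU_iff` of Geo.lean or the fields directly.
-/

set_option linter.unusedSectionVars false
set_option linter.unusedSimpArgs false

namespace AG

open Finset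

variable {I : Type} [DecidableEq I]

namespace Obj

variable (S : Obj I) (pt : Sd I → Pt)

theorem face_mir {t : I} : S.mir.Face t ↔ S.Face t := by
  unfold Face
  refine and_congr Iff.rfl ?_
  constructor
  · intro h i hi
    have h1 := h (ms (t, i)).2
    have e : ((t, (ms (t, i)).2) : Sd I) = ms (t, i) := rfl
    rw [e, mir_glued] at h1
    exact h1 hi
  · intro h i
    obtain ⟨b, hb⟩ := exists_ms ((t, i) : Sd I)
    have hb1 : b.1 = t := by rw [← ms_fst b, ← hb]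
    have e : b = (t, b.2) := by rw [← hb1]
    rw [hb, mir_glued, e]
    exact h b.2

theorem blade_mir {c : Sd I} : S.mir.Blade (mc c) ↔ S.Blade c := by
  unfold Blade
  rw [mir_glued_mc, unrot_mc, mir_glued, rot_mc, mir_unglued, mem_mir_E]
  tauto

theorem eared_mir {c : Sd I} : S.mir.Eared (mc c) ↔ S.Eared c := by
  unfold Eared
  rw [mir_glued_mc, unrot_mc, mir_glued, rot_mc, mem_mir_E]
  tauto

theorem active_mir {a : Sd I} : S.mir.Active (ms a) ↔ S.Active a := by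
  unfold Active
  rw [mir_glued, mir_g_ms, ms_fst, face_mir]

theorem blk_mir {a : Sd I} : S.mir.Blk (ptm pt) (ms a) ↔ S.Blk pt (S.g a) := by
  show (S.mir.g (ms a) ≠ ms a ∧
    Real.pi ≤ cang (ptm pt) (ms a) + cang (ptm pt) (rot (S.mir.g (ms a)))) ↔
    (S.g (S.g a) ≠ S.g a ∧ Real.pi ≤ cang pt (S.g a) + cang pt (rot (S.g (S.g a))))
  rw [mir_glued, mir_g_ms, rot_ms, cang_mir, g_ne_iff, S.invol]
  have e : cang (ptm pt) (ms a) = cang pt (rot a) := cang_mir pt (rot a)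
  rw [e, add_comm]

theorem isU_mir {a : Sd I} : S.mir.IsU (ptm pt) (ms a) ↔ S.IsU pt a := by
  have e : cang (ptm pt) (ms a) = cang pt (rot a) := cang_mir pt (rot a)
  have e2 : cang (ptm pt) (ms (S.g a)) = cang pt (rot (S.g a)) := cang_mir pt (rot (S.g a))
  constructor
  · rintro ⟨h1, h2, h3⟩
    rw [mir_g_ms, rot_ms, cang_mir, e] at h2
    rw [mir_g_ms, rot_ms, cang_mir, e2] at h3
    exact ⟨(S.mir_glued).1 h1, by linarith, by linarith⟩
  · rintro ⟨h1, h2, h3⟩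
    refine ⟨(S.mir_glued).2 h1, ?_, ?_⟩
    · rw [mir_g_ms, rot_ms, cang_mir, e]
      linarith
    · rw [mir_g_ms, rot_ms, cang_mir, e2]
      linarith

theorem pairAt_mir {c : Sd I} : S.mir.PairAt (ptm pt) (mc c) ↔ S.PairAt pt c := by
  have h1 : S.mir.Blk (ptm pt) (mc c) ↔ S.Blk pt (S.g (unrot c)) := by
    rw [mc_eq_ms]
    exact S.blk_mir pt
  have h2 : S.mir.Blk (ptm pt) (S.mir.g (unrot (mc c))) ↔ S.Blk pt c := by
    rw [unrot_mc, mir_g_ms]
    have h3 := S.blk_mir pt (a := S.g c)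
    rwa [S.invol] at h3
  constructor
  · rintro ⟨a1, a2⟩
    exact ⟨h2.1 a2, h1.1 a1⟩
  · rintro ⟨a1, a2⟩
    exact ⟨h1.2 a2, h2.2 a1⟩

theorem candB_mir {a : Sd I} : S.mir.CandB (ptm pt) (ms a) ↔ S.CandA pt a := by
  have h1 : S.mir.Active (mc a) ↔ S.Active (unrot a) := by
    rw [mc_eq_ms]
    exact S.active_mir
  show (S.mir.Blade (rot (ms a)) ∧ S.mir.Active (ms a) ∧ (S.mir.IsU (ptm pt) (ms a) ∨
    (S.mir.PairAt (ptm pt) (rot (ms a)) ∧ ¬ S.mir.Active (rot (ms a))))) ↔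
    (S.Blade a ∧ S.Active a ∧ (S.IsU pt a ∨ (S.PairAt pt a ∧ ¬ S.Active (unrot a))))
  rw [rot_ms, blade_mir, active_mir, isU_mir, pairAt_mir, h1]

theorem candA_mir {a : Sd I} : S.mir.CandA (ptm pt) (ms a) ↔ S.CandB pt a := by
  have h1 : S.mir.Blade (ms a) ↔ S.Blade (rot a) := S.blade_mir
  have h2 : S.mir.PairAt (ptm pt) (ms a) ↔ S.PairAt pt (rot a) := S.pairAt_mir pt
  show (S.mir.Blade (ms a) ∧ S.mir.Active (ms a) ∧ (S.mir.IsU (ptm pt) (ms a) ∨
    (S.mir.PairAt (ptm pt) (ms a) ∧ ¬ S.mir.Active (unrot (ms a))))) ↔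
    (S.Blade (rot a) ∧ S.Active a ∧ (S.IsU pt a ∨ (S.PairAt pt (rot a) ∧ ¬ S.Active (rot a))))
  rw [h1, h2, unrot_ms, active_mir, active_mir, isU_mir]

theorem virtB_mir {w : Sd I} : S.mir.VirtB (ptm pt) (mc w) ↔ S.VirtA pt w := by
  unfold VirtB VirtA
  rw [rot_mc, mir_g_ms, candB_mir]

theorem virtA_mir {w : Sd I} : S.mir.VirtA (ptm pt) (mc w) ↔ S.VirtB pt w := by
  unfold VirtB VirtA
  rw [rot_mc, mir_g_ms, candA_mir]

theorem bladeAt_mir {w : Sd I} : S.mir.BladeAt (ptm pt) (mc w) ↔ S.BladeAt pt w := by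
  unfold BladeAt
  rw [blade_mir, virtA_mir, virtB_mir]
  tauto

theorem stub_mir {w c : Sd I} : S.mir.Stub (ptm pt) (mc w) (ms c) ↔ S.Stub pt w c := by
  have h1 : ms c = mc w ↔ c = unrot w := by rw [mc_eq_ms, ms_inj]
  have h2 : ms c = unrot (mc w) ↔ c = w := by rw [unrot_mc, ms_inj]
  unfold Stub
  rw [blade_mir, virtA_mir, virtB_mir, h1, h2]
  tauto

theorem earEnd_mir {p : Sd I} : S.mir.EarEnd (mc p) ↔ S.EarEnd p := by
  have key : ∀ b : Sd I, (S.mir.Eqv (ms b) (mc p) ∨ S.mir.Eqv (rot (ms b)) (mc p)) ↔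
      (S.Eqv b p ∨ S.Eqv (rot b) p) := by
    intro b
    have h1 : S.mir.Eqv (ms b) (mc p) ↔ S.Eqv (rot b) p := S.mir_eqv
    rw [h1, rot_ms, mir_eqv]
    exact or_comm
  constructor
  · rintro ⟨a, ha, h⟩
    obtain ⟨b, rfl⟩ := exists_ms a
    exact ⟨b, (S.mem_mir_E).1 ha, (key b).1 h⟩
  · rintro ⟨b, hb, h⟩
    exact ⟨ms b, (S.mem_mir_E).2 hb, (key b).2 h⟩

end Obj

end AG
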