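import Pool.Agent.AG.Fan

/-!
# Project AG: the mirror image of an object (combinatorial part)

`mc` maps corners, `ms` maps sides: the side `a` (from the corner `a` to the corner `rot a`) has the
mirror image `ms a = mc (rot a)`, which runs from the corner `mc (rot a)` to the corner `mc a`.
Names of triangles are unchanged.
-/

set_option linter.unusedSectionVars false
set_option linter.unusedSimpArgs false

namespace AG

open Finset

variable {I : Type}

/-- corners of the mirror image -/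
def mc (a : Sd I) : Sd I := (a.1, -a.2)

/-- sides of the mirror image -/
def ms (a : Sd I) : Sd I := mc (rot a)

@[simp] theorem mc_fst (a : Sd I) : (mc a).1 = a.1 := rfl
@[simp] theorem ms_fst (a : Sd I) : (ms a).1 = a.1 := rfl

@[simp] theorem mc_mc (a : Sd I) : mc (mc a) = a := by
  refine Prod.ext rfl ?_
  exact (by decide : ∀ i : Fin 3, -(-i) = i) a.2

theorem mc_rot (a : Sd I) : mc (rot a) = unrot (mc a) := by
  refine Prod.ext rfl ?_
  exact (by decide : ∀ i : Fin 3, -(i + 1) = -i + 2) a.2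

theorem mc_unrot (a : Sd I) : mc (unrot a) = rot (mc a) := by
  refine Prod.ext rfl ?_
  exact (by decide : ∀ i : Fin 3, -(i + 2) = -i + 1) a.2

@[simp] theorem ms_ms (a : Sd I) : ms (ms a) = a := by
  refine Prod.ext rfl ?_
  exact (by decide : ∀ i : Fin 3, -(-(i + 1) + 1) = i) a.2

/-- the side which starts at the corner `mc a` -/
theorem mc_eq_ms (a : Sd I) : mc a = ms (unrot a) := by
  unfold ms; rw [rot_unrot]

theorem ms_eq (a : Sd I) : ms a = unrot (mc a) := mc_rot a

/-- the side opposite to the corner `mc a` -/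
theorem rot_mc (a : Sd I) : rot (mc a) = ms (rot a) := by
  refine Prod.ext rfl ?_
  exact (by decide : ∀ i : Fin 3, -i + 1 = -(i + 1 + 1)) a.2

theorem unrot_mc (a : Sd I) : unrot (mc a) = ms a := (mc_rot a).symm

theorem rot_ms (a : Sd I) : rot (ms a) = mc a := by rw [ms_eq, rot_unrot]

theorem unrot_ms (a : Sd I) : unrot (ms a) = ms (rot a) := by
  refine Prod.ext rfl ?_
  exact (by decide : ∀ i : Fin 3, -(i + 1) + 2 = -(i + 1 + 1)) a.2

theorem mc_injective : Function.Injective (mc : Sd I → Sd I) := fun a b h => by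
  rw [← mc_mc a, h, mc_mc]

theorem ms_injective : Function.Injective (ms : Sd I → Sd I) := fun a b h => by
  rw [← ms_ms a, h, ms_ms]

theorem mc_inj {a b : Sd I} : mc a = mc b ↔ a = b := mc_injective.eq_iff
theorem ms_inj {a b : Sd I} : ms a = ms b ↔ a = b := ms_injective.eq_iff

theorem exists_mc (a : Sd I) : ∃ b, a = mc b := ⟨mc a, (mc_mc a).symm⟩
theorem exists_ms (a : Sd I) : ∃ b, a = ms b := ⟨ms a, (ms_ms a).symm⟩

theorem forall_mc {p : Sd I → Prop} : (∀ a, p a) ↔ ∀ a, p (mc a) :=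
  ⟨fun h a => h _, fun h a => by obtain ⟨b, rfl⟩ := exists_mc a; exact h b⟩
theorem forall_ms {p : Sd I → Prop} : (∀ a, p a) ↔ ∀ a, p (ms a) :=
  ⟨fun h a => h _, fun h a => by obtain ⟨b, rfl⟩ := exists_ms a; exact h b⟩
theorem exists_mc_iff {p : Sd I → Prop} : (∃ a, p a) ↔ ∃ a, p (mc a) :=
  ⟨fun ⟨a, h⟩ => by obtain ⟨b, rfl⟩ := exists_mc a; exact ⟨b, h⟩, fun ⟨a, h⟩ => ⟨_, h⟩⟩
theorem exists_ms_iff {p : Sd I → Prop} : (∃ a, p a) ↔ ∃ a, p (ms a) :=
  ⟨fun ⟨a, h⟩ => by obtain ⟨b, rfl⟩ := exists_ms a; exact ⟨b, h⟩, fun ⟨a, h⟩ => ⟨_, h⟩⟩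

variable [DecidableEq I]

theorem mem_image_ms {X : Finset (Sd I)} {a : Sd I} : ms a ∈ X.image ms ↔ a ∈ X := by
  rw [mem_image]
  constructor
  · rintro ⟨b, hb, h⟩; rwa [← ms_injective h]
  · intro h; exact ⟨a, h, rfl⟩

theorem mem_image_mc {X : Finset (Sd I)} {a : Sd I} : mc a ∈ X.image mc ↔ a ∈ X := by
  rw [mem_image]
  constructor
  · rintro ⟨b, hb, h⟩; rwa [← mc_injective h]
  · intro h; exact ⟨a, h, rfl⟩

namespace Obj

/-- the mirror image -/
def mir (S : Obj I) : Obj I where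
  F := S.F
  g a := ms (S.g (ms a))
  E := S.E.image ms
  invol a := by simp [S.invol]
  ne a h := by
    have h1 : S.g (ms a) ≠ ms a := fun e => h (by rw [e, ms_ms])
    have := S.ne _ h1
    simpa using this
  memF a h := by
    have h1 : S.g (ms a) ≠ ms a := fun e => h (by rw [e, ms_ms])
    exact S.memF (ms a) h1
  earF a h := by
    obtain ⟨b, hb, rfl⟩ := mem_image.1 h
    exact S.earF b hb
  earFree a h := by
    obtain ⟨b, hb, rfl⟩ := mem_image.1 h
    rw [ms_ms, S.earFree _ hb]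

variable (S : Obj I)

@[simp] theorem mir_F : S.mir.F = S.F := rfl
theorem mir_g (a : Sd I) : S.mir.g a = ms (S.g (ms a)) := rfl
theorem mir_g_ms (a : Sd I) : S.mir.g (ms a) = ms (S.g a) := by rw [mir_g, ms_ms]
theorem mir_g_mc (a : Sd I) : S.mir.g (mc a) = ms (S.g (unrot a)) := by rw [mc_eq_ms, mir_g_ms]

theorem mir_glued {a : Sd I} : S.mir.g (ms a) ≠ ms a ↔ S.g a ≠ a := by
  rw [mir_g_ms, ne_eq, ms_inj]

theorem mir_unglued {a : Sd I} : S.mir.g (ms a) = ms a ↔ S.g a = a := by
  rw [mir_g_ms, ms_inj]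

theorem mir_glued_mc {a : Sd I} : S.mir.g (mc a) ≠ mc a ↔ S.g (unrot a) ≠ unrot a := by
  rw [mc_eq_ms, mir_glued]

theorem mem_mir_E {a : Sd I} : ms a ∈ S.mir.E ↔ a ∈ S.E := mem_image_ms

theorem ext' {S T : Obj I} (h1 : S.F = T.F) (h2 : S.g = T.g) (h3 : S.E = T.E) : S = T := by
  cases S; cases T; simp only at h1 h2 h3; subst h1; subst h2; subst h3; rfl

@[simp] theorem mir_mir : S.mir.mir = S := by
  apply ext'
  · rfl
  · funext a; rw [mir_g, mir_g_ms, ms_ms]
  · change (S.E.image ms).image ms = S.E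
    rw [image_image]
    have : (ms ∘ ms : Sd I → Sd I) = id := by funext a; exact ms_ms a
    rw [this, image_id]

theorem mir_E_card : S.mir.E.card = S.E.card := card_image_of_injective _ ms_injective

theorem mir_sides : S.mir.sides = S.sides := rfl

theorem mir_vis : S.mir.vis = S.vis.image ms := by
  ext a
  obtain ⟨b, rfl⟩ := exists_ms a
  rw [mem_image_ms, mem_vis, mem_vis, mir_unglued]; rfl

theorem mir_glued_eq : S.mir.glued = S.glued.image ms := by
  ext a
  obtain ⟨b, rfl⟩ := exists_ms a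
  rw [mem_image_ms, mem_glued, mem_glued, mir_glued]

theorem mir_glued_card : S.mir.glued.card = S.glued.card := by
  rw [mir_glued_eq, card_image_of_injective _ ms_injective]

theorem mir_vis_card : S.mir.vis.card = S.vis.card := by
  rw [mir_vis, card_image_of_injective _ ms_injective]

theorem mir_N2 (k : ℕ) : S.mir.N2 k = S.N2 k := by
  unfold N2; rw [mir_vis_card, mir_E_card]; rfl

theorem mem_mir_bd {X : Finset I} {a : Sd I} : ms a ∈ S.mir.bd X ↔ a ∈ S.bd X := by
  rw [mem_bd, mem_bd, mir_glued, mir_g_ms]; rfl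

theorem mir_bd (X : Finset I) : S.mir.bd X = (S.bd X).image ms := by
  ext a
  obtain ⟨b, rfl⟩ := exists_ms a
  rw [mem_image_ms, mem_mir_bd]

theorem mir_bd_nonempty {X : Finset I} : (S.mir.bd X).Nonempty ↔ (S.bd X).Nonempty := by
  rw [mir_bd, image_nonempty]

theorem mir_conn : S.mir.Conn ↔ S.Conn := by
  unfold Conn
  refine and_congr Iff.rfl ?_
  refine forall_congr' fun X => ?_
  rw [mir_bd_nonempty]; rfl

theorem mir_bridge {a : Sd I} : S.mir.Bridge (ms a) ↔ S.Bridge a := by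
  unfold Bridge
  refine exists_congr fun X => and_congr Iff.rfl ?_
  rw [mir_bd]
  constructor
  · intro h
    ext b
    rw [← mem_image_ms, h, mem_singleton, mem_singleton, ms_inj]
  · intro h; rw [h, image_singleton]

theorem mir_noncore {t : I} : S.mir.Noncore t ↔ S.Noncore t := by
  unfold Noncore
  refine and_congr Iff.rfl ?_
  constructor
  · intro h i hi
    have h1 := h (ms (t, i)).2
    have e : ((t, (ms (t, i)).2) : Sd I) = ms (t, i) := rfl
    rw [e, mir_glued, mir_bridge] at h1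
    exact h1 hi
  · intro h i hi
    obtain ⟨b, hb⟩ := exists_ms ((t, i) : Sd I)
    have hb1 : b.1 = t := by rw [← ms_fst b, ← hb]
    have e : b = (t, b.2) := by rw [← hb1]
    rw [hb, mir_glued] at hi
    rw [hb, mir_bridge, e]
    exact h b.2 (by rw [← e]; exact hi)

theorem mir_bridgeless : S.mir.Bridgeless ↔ S.Bridgeless := by
  unfold Bridgeless
  rw [forall_ms]
  refine forall_congr' fun a => ?_
  rw [mir_bridge]

/-! ### corners at a visit -/

theorem mir_step {a b : Sd I} : S.mir.Step (mc a) (mc b) ↔ S.Step b a := by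
  unfold Step
  rw [mir_glued_mc, mir_g_mc, rot_ms, mc_inj]
  constructor
  · rintro ⟨h1, h2⟩
    refine ⟨?_, ?_⟩
    · rw [h2, S.invol]; exact h1.symm
    · rw [h2, S.invol, rot_unrot]
  · rintro ⟨h1, h2⟩
    refine ⟨?_, ?_⟩
    · rw [h2, unrot_rot, S.invol]; exact h1.symm
    · rw [h2, unrot_rot, S.invol]

theorem mir_eqv_aux {S : Obj I} {a b : Sd I} (h : S.Eqv a b) : S.mir.Eqv (mc a) (mc b) := by
  induction h with
  | rel x y hxy => exact (Relation.EqvGen.rel _ _ ((mir_step S).2 hxy)).symm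
  | refl x => exact Eqv.refl _ _
  | symm x y _ ih => exact ih.symm
  | trans x y z _ _ ih1 ih2 => exact ih1.trans ih2

theorem mir_eqv {a b : Sd I} : S.mir.Eqv (mc a) (mc b) ↔ S.Eqv a b := by
  constructor
  · intro h
    have := mir_eqv_aux h
    rwa [mir_mir, mc_mc, mc_mc] at this
  · exact mir_eqv_aux

theorem mir_hit {C : Finset (Sd I)} {c : Sd I} : S.mir.Hit (C.image mc) (mc c) ↔ S.Hit C c := by
  unfold Hit
  constructor
  · rintro ⟨d, hd, h⟩
    obtain ⟨e, he, rfl⟩ := mem_image.1 hd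
    exact ⟨e, he, (S.mir_eqv).1 h⟩
  · rintro ⟨d, hd, h⟩
    exact ⟨mc d, mem_image_of_mem _ hd, (S.mir_eqv).2 h⟩

theorem mir_cw (a : Sd I) : S.mir.cw (mc a) = mc (S.ccw a) := by
  unfold cw ccw
  by_cases h : S.g (unrot a) = unrot a
  · rw [if_pos h, if_pos]
    rw [mir_g_mc, h, mc_eq_ms]
  · rw [if_neg h, if_neg, mir_g_mc, rot_ms]
    exact (mir_glued_mc S).2 h

theorem mir_ccw (a : Sd I) : S.mir.ccw (mc a) = mc (S.cw a) := by
  unfold cw ccw
  rw [unrot_mc]
  by_cases h : S.g a = a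
  · rw [if_pos h, if_pos]
    exact (mir_unglued S).2 h
  · rw [if_neg h, if_neg ((mir_glued S).2 h), mir_g_ms]; rfl

end Obj

end AG
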