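import Pool.Agent.AG.Mir.Defs
import Pool.Agent.AG.Blades

/-!
# Project AG: the mirror image, geometric part

All statements are proved below.

Hints.  `refl (x,y) = (x,-y)`; `ptm pt a' = refl (pt (mc a'))`, so `ptm pt (mc a) = refl (pt a)`.
`cr (refl a) (refl b) (refl c) = - cr a b c`.
`ang_refl`: with `z = (c-a)/(b-a)` (complex) the mirrored quotient is `conj (z⁻¹)`, which is `z`
divided by `normSq z`, so it has the same argument (`Complex.arg_real_mul`; `z = 0` or `b = a`
trivial); no hypothesis is needed (`Complex.conj`, `Complex.inv_def`).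
`mir_geo`: it suffices to prove one direction for all `S` (`mir_mir`, `ptm_ptm`).  `ccw0` of the
triangle `t`: the corners `(t,0), (t,1), (t,2)` are the mirrors of `(t,0), (t,2), (t,1)`; or use
`Geo.ccw` for corners and `ccw_of_ccw0`; `asum`: `Finset.sum_image`/`sum_bij` with `mc`.
`Sol`: `C' = C.image mc`; `ear`: the ear `ms a` has the corners `ms a = mc (rot a)` and
`rot (ms a) = mc a`.  `Cov`: `tri (ptm pt) t = refl '' tri pt t`,
`segment ℝ (refl x) (refl y) = refl '' segment ℝ x y`.
-/

set_option linter.unusedSectionVars false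
set_option linter.unusedSimpArgs false

namespace AG

open Finset

/-- reflection of the plane -/
def refl (p : Pt) : Pt := (p.1, -p.2)

@[simp] theorem refl_refl (p : Pt) : refl (refl p) = p := by
  unfold refl; simp

theorem refl_injective : Function.Injective refl := fun a b h => by
  rw [← refl_refl a, h, refl_refl]

theorem cr_refl (a b c : Pt) : cr (refl a) (refl b) (refl c) = - cr a b c := by
  unfold cr refl; ring

private theorem toC_refl (p : Pt) : toC (refl p) = (starRingEnd ℂ) (toC p) := by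
  apply Complex.ext
  · simp [refl]
  · simp [refl]

theorem ang_refl (a b c : Pt) : ang (refl a) (refl c) (refl b) = ang a b c := by
  unfold ang
  rw [toC_refl, toC_refl, toC_refl, ← map_sub, ← map_sub, ← map_div₀]
  have e : (toC b - toC a) / (toC c - toC a) = ((toC c - toC a) / (toC b - toC a))⁻¹ := by
    rw [inv_div]
  rw [e, Complex.arg_conj, Complex.arg_inv]
  generalize (toC c - toC a) / (toC b - toC a) = z
  have h := Complex.neg_pi_lt_arg z
  by_cases hz : z.arg = Real.pi
  · rw [if_pos hz, if_pos rfl, hz]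
  · rw [if_neg hz, if_neg, neg_neg]
    intro h1
    linarith

theorem otri_refl (a b c p : Pt) : refl p ∈ otri (refl a) (refl c) (refl b) ↔ p ∈ otri a b c := by
  unfold otri
  simp only [Set.mem_setOf_eq, cr_refl]
  rw [← cr_swap' a c p, ← cr_swap' c b p, ← cr_swap' b a p]
  tauto

theorem ctri_refl (a b c p : Pt) : refl p ∈ ctri (refl a) (refl c) (refl b) ↔ p ∈ ctri a b c := by
  unfold ctri
  simp only [Set.mem_setOf_eq, cr_refl]
  rw [← cr_swap' a c p, ← cr_swap' c b p, ← cr_swap' b a p]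
  tauto

theorem segment_refl (a b : Pt) : segment ℝ (refl a) (refl b) = refl '' segment ℝ a b := by
  have h := image_segment ℝ
    ((LinearMap.prodMap (LinearMap.id : ℝ →ₗ[ℝ] ℝ) (-(LinearMap.id : ℝ →ₗ[ℝ] ℝ))).toAffineMap) a b
  exact h.symm

variable {I : Type}

/-- the points of the mirror image -/
def ptm (pt : Sd I → Pt) (a : Sd I) : Pt := refl (pt (mc a))

theorem ptm_mc (pt : Sd I → Pt) (a : Sd I) : ptm pt (mc a) = refl (pt a) := by
  unfold ptm; rw [mc_mc]

@[simp] theorem ptm_ptm (pt : Sd I → Pt) : ptm (ptm pt) = pt := by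
  funext a; unfold ptm; simp

theorem cang_mir (pt : Sd I → Pt) (a : Sd I) : cang (ptm pt) (mc a) = cang pt a := by
  unfold cang
  rw [← mc_unrot, ← mc_rot, ptm_mc, ptm_mc, ptm_mc, ang_refl]

private theorem mc_zero (t : I) : mc (t, (0 : Fin 3)) = (t, 0) := by
  unfold mc
  rw [neg_zero]

private theorem mem_tri_refl (pt : Sd I → Pt) (t : I) (p : Pt) :
    refl p ∈ tri (ptm pt) t ↔ p ∈ tri pt t := by
  have e0 : ptm pt (t, 0) = refl (pt (t, 0)) := by
    rw [← ptm_mc, mc_zero]
  have e1 : ptm pt (t, 1) = refl (pt (t, 2)) := ptm_mc pt (t, 2)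
  have e2 : ptm pt (t, 2) = refl (pt (t, 1)) := ptm_mc pt (t, 1)
  unfold tri
  rw [e0, e1, e2, ctri_refl]

private theorem mem_image_refl (R : Set Pt) (p : Pt) : p ∈ refl '' R ↔ refl p ∈ R := by
  constructor
  · rintro ⟨q, hq, rfl⟩
    rwa [refl_refl]
  · intro h
    exact ⟨refl p, h, refl_refl p⟩

theorem tri_mir (pt : Sd I → Pt) (t : I) : tri (ptm pt) t = refl '' tri pt t := by
  ext p
  rw [mem_image_refl, ← mem_tri_refl pt t (refl p), refl_refl]

theorem tri_mir_subset (pt : Sd I → Pt) (t : I) (R : Set Pt) :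
    tri (ptm pt) t ⊆ refl '' R ↔ tri pt t ⊆ R := by
  rw [tri_mir, Set.image_subset_image_iff refl_injective]

theorem refl_refl_image (R : Set Pt) : refl '' (refl '' R) = R := by
  ext p
  rw [mem_image_refl, mem_image_refl, refl_refl]

variable [DecidableEq I]

theorem cov_mir {pt : Sd I → Pt} {R : Set Pt} {C : Finset (Sd I)} {t : I} :
    Cov (ptm pt) (refl '' R) (C.image mc) t ↔ Cov pt R C t := by
  constructor
  · intro h p hp
    obtain ⟨c, hc, hs⟩ := h (refl p) ((mem_tri_refl pt t p).2 hp)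
    obtain ⟨d, hd, rfl⟩ := mem_image.1 hc
    refine ⟨d, hd, ?_⟩
    rwa [ptm_mc, segment_refl, Set.image_subset_image_iff refl_injective] at hs
  · intro h p hp
    rw [tri_mir, mem_image_refl] at hp
    obtain ⟨c, hc, hs⟩ := h (refl p) hp
    refine ⟨mc c, mem_image_of_mem _ hc, ?_⟩
    rw [← refl_refl p, ptm_mc, segment_refl, Set.image_subset_image_iff refl_injective]
    exact hs

namespace Obj

private theorem ptm_zero (pt : Sd I → Pt) (t : I) : ptm pt (t, 0) = refl (pt (t, 0)) := by
  rw [← ptm_mc, mc_zero]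
private theorem ptm_one (pt : Sd I → Pt) (t : I) : ptm pt (t, 1) = refl (pt (t, 2)) :=
  ptm_mc pt (t, 2)
private theorem ptm_two (pt : Sd I → Pt) (t : I) : ptm pt (t, 2) = refl (pt (t, 1)) :=
  ptm_mc pt (t, 1)

theorem mir_geo_aux {S : Obj I} {pt : Sd I → Pt} (h : S.Geo pt) : S.mir.Geo (ptm pt) := by
  classical
  refine ⟨?_, ?_, ?_, ?_⟩
  · intro t ht
    have h1 := h.ccw0 t ht
    unfold Ccw at h1 ⊢
    rw [ptm_zero, ptm_one, ptm_two, cr_refl, cr_swap, neg_neg]
    exact h1
  · intro a ha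
    obtain ⟨b, rfl⟩ := exists_ms a
    rw [mir_glued] at ha
    rw [mir_g_ms, rot_ms, ptm_mc, AG.Geo.mat' h ha]
    exact (ptm_mc pt (rot b)).symm
  · intro t ht t' ht' hne
    have h1 := h.disj0 t ht t' ht' hne
    rw [Set.disjoint_left] at h1 ⊢
    intro p hp hp'
    rw [ptm_zero, ptm_one, ptm_two, ← refl_refl p, otri_refl] at hp hp'
    exact h1 hp hp'
  · intro p
    have h1 := h.asum (refl p)
    refine lt_of_eq_of_lt ?_ h1
    symm
    refine sum_bij (fun a _ => mc a) ?_ ?_ ?_ ?_
    · intro a ha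
      rw [mem_filter] at ha ⊢
      refine ⟨?_, ?_⟩
      · have h2 := ha.1
        unfold sides at h2 ⊢
        rw [mem_product] at h2 ⊢
        exact ⟨h2.1, mem_univ _⟩
      · rw [ptm_mc, ha.2, refl_refl]
    · intro a _ b _ hab
      exact mc_injective hab
    · intro b hb
      rw [mem_filter] at hb
      refine ⟨mc b, ?_, mc_mc b⟩
      rw [mem_filter]
      refine ⟨?_, ?_⟩
      · have h2 := hb.1
        unfold sides at h2 ⊢
        rw [mem_product] at h2 ⊢
        exact ⟨h2.1, mem_univ _⟩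
      · rw [← hb.2]
        unfold ptm
        rw [refl_refl]
    · intro a _
      exact (cang_mir pt a).symm

theorem mir_geo {S : Obj I} {pt : Sd I → Pt} : S.mir.Geo (ptm pt) ↔ S.Geo pt := by
  constructor
  · intro h
    have := mir_geo_aux h
    rwa [mir_mir, ptm_ptm] at this
  · exact mir_geo_aux

theorem mir_sol_aux {S : Obj I} {pt : Sd I → Pt} {R : Set Pt} {W C : Finset (Sd I)}
    (h : Sol S pt R W C) : Sol S.mir (ptm pt) (refl '' R) (W.image mc) (C.image mc) := by
  refine ⟨?_, ?_, ?_, ?_, ?_⟩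
  · intro a ha
    obtain ⟨b, hb, rfl⟩ := mem_image.1 ha
    have h2 := h.sub hb
    unfold sides at h2 ⊢
    rw [mem_product] at h2 ⊢
    exact ⟨h2.1, mem_univ _⟩
  · intro w hw
    obtain ⟨b, hb, rfl⟩ := mem_image.1 hw
    exact (S.mir_hit).2 (h.forced b hb)
  · intro a ha
    obtain ⟨b, rfl⟩ := exists_ms a
    rw [mem_mir_E] at ha
    rw [rot_ms]
    rcases h.ear b ha with h1 | h1
    · exact Or.inr ((S.mir_hit).2 h1)
    · exact Or.inl ((S.mir_hit).2 h1)
  · intro t ht
    rw [mir_noncore] at ht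
    obtain ⟨i, hi⟩ := h.dom t ht
    exact ⟨(mc (t, i)).2, (S.mir_hit).2 hi⟩
  · intro t ht
    exact cov_mir.2 (h.cov t ht)

theorem mir_P_aux {S : Obj I} {pt : Sd I → Pt} {R : Set Pt} {W : Finset (Sd I)}
    (h : P S pt R W) : P S.mir (ptm pt) (refl '' R) (W.image mc) := by
  obtain ⟨C, hC, hc⟩ := h
  refine ⟨C.image mc, mir_sol_aux hC, ?_⟩
  rw [card_image_of_injective _ mc_injective, card_image_of_injective _ mc_injective, mir_N2]
  exact hc

private theorem image_mc_mc (W : Finset (Sd I)) : (W.image mc).image mc = W := by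
  ext a
  obtain ⟨b, rfl⟩ := exists_mc a
  rw [mem_image_mc, mem_image]
  constructor
  · rintro ⟨c, hc, h⟩
    rw [← h, mc_mc]
    exact hc
  · intro h
    exact ⟨mc b, h, mc_mc b⟩

theorem mir_P {S : Obj I} {pt : Sd I → Pt} {R : Set Pt} {W : Finset (Sd I)} :
    P S.mir (ptm pt) (refl '' R) (W.image mc) ↔ P S pt R W := by
  constructor
  · intro h
    have := mir_P_aux h
    rwa [mir_mir, ptm_ptm, refl_refl_image, image_mc_mc] at this
  · exact mir_P_aux

private theorem mir_IH_aux {R : Set Pt} {n : ℕ} (h : IH I R n) : IH I (refl '' R) n := by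
  intro S pt hg hc hs hn W hW
  have hg' := mir_geo_aux hg
  have hs' : ∀ t ∈ S.mir.F, tri (ptm pt) t ⊆ R := by
    intro t ht
    have h2 := hs t ht
    rw [tri_mir]
    intro p hp
    rw [mem_image_refl] at hp
    have h3 := h2 hp
    rwa [mem_image_refl, refl_refl] at h3
  have hW' : W.image mc ⊆ S.mir.sides := by
    intro a ha
    obtain ⟨b, hb, rfl⟩ := mem_image.1 ha
    have h2 := hW hb
    unfold sides at h2 ⊢
    rw [mem_product] at h2 ⊢
    exact ⟨h2.1, mem_univ _⟩
  have h1 := h S.mir (ptm pt) hg' (S.mir_conn.2 hc) hs' (by rw [mir_glued_card]; exact hn) _ hW'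
  have h2 := mir_P_aux h1
  rwa [mir_mir, ptm_ptm, image_mc_mc] at h2

theorem mir_IH {R : Set Pt} {n : ℕ} : IH I (refl '' R) n ↔ IH I R n := by
  constructor
  · intro h
    have := mir_IH_aux h
    rwa [refl_refl_image] at this
  · exact mir_IH_aux

theorem mir_cex_aux {S : Obj I} {pt : Sd I → Pt} {R : Set Pt} (h : Cex S pt R) :
    Cex S.mir (ptm pt) (refl '' R) := by
  refine ⟨mir_geo_aux h.geo, S.mir_conn.2 h.conn, ?_, ?_, ?_⟩
  · intro t ht
    exact (tri_mir_subset pt t R).2 (h.sub t ht)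
  · rw [mir_IH, mir_glued_card]
    exact h.ih
  · intro h1
    apply h.bad
    have e : (∅ : Finset (Sd I)) = (∅ : Finset (Sd I)).image mc := rfl
    rw [e, mir_P] at h1
    exact h1

theorem mir_cex {S : Obj I} {pt : Sd I → Pt} {R : Set Pt} :
    Cex S.mir (ptm pt) (refl '' R) ↔ Cex S pt R := by
  constructor
  · intro h
    have := mir_cex_aux h
    rwa [mir_mir, ptm_ptm, refl_refl_image] at this
  · exact mir_cex_aux

end Obj

end AG
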